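import Pool.Agent.Helper59.SD.Core

/-!
# The noncommutative Künneth conjecture for Schur functors and their products

`SuperRealization F K C` (from the starting files) is an `F`-linear symmetric monoidal functor from a
rigid symmetric monoidal category `C` (in the question: the noncommutative Chow motives over `k`
with coefficients in `F`) to the finite-dimensional super vector spaces over `K` (in the question:
`HP^±`), and `CNC M` is the conjecture for the object `M`. Let the characteristic of `K` be zero.

Let `A i` be objects and `w = i₁ i₂ …` a word, `word A w = A i₁ ⊗ (A i₂ ⊗ ⋯)`, and let `M` be a direct
summand of `word A w` whose idempotent is an `F`-linear combination of permutations of the factors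
(`IsPerm`). For `w = i ⋯ i` (`n` times) these `M` are all direct summands of `A^{⊗ n}` given by
idempotents of the group algebra of the symmetric group `S_n`: the symmetric and the exterior
powers of `A`, and all Schur functors `S_λ(A)`. In general they are given by the idempotents of the
group algebra of a product of symmetric groups.

**Theorem.** If `HP^±(M) ≠ 0` then `C_NC (M)` is true if and only if `C_NC (A i)` is true for all
letters `i` of `w`.

So one nonzero Schur functor of `A` decides the conjecture for `A` (and then for all of them). For
instance, over a field of characteristic zero, the conjecture for a single symmetric power `Sym^n A`,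
`n ≥ 1`, or for a single nonzero exterior power, implies it for `A`. Known before were the tensor
products (`TensorDescent`) and the two summands of `A ⊗ A` (`SquareDescent`). Note that `A` need not be
a direct summand of `M ⊗ B` for any `B`, and that `HP^±(M)` can be much smaller than `HP^±(A)^{⊗ n}`.

Proof. Let `e` be the idempotent of `M`. If the parity operator of `M` is algebraic then so is the sum
`Φ` over the factors `A` of the partial supertraces of `par e` with respect to all other factors. As `e`
commutes with the action of the even operators `X` of `V = HP^±(A)` as derivations `D(X)` on the tensor
product, `par Φ` commutes with all even operators, and so `par Φ = p π^+ + q π^-`. The traces: `p dim V^+`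
is the trace of `D(π^+)` on `HP^±(M)`, which is a natural number as `D(π^+)` has natural eigenvalues,
similarly for `q dim V^-`; and the sum of the two is the number of the factors `A` times
`dim HP^±(M) > 0`. So `p + q` is a positive rational number, and the parity operator of `A` is a rational
combination of `Φ` and the identity.
-/

set_option autoImplicit false

namespace Pool.Agent.Helper59.Variants.SchurFunctorDescent

open CategoryTheory MonoidalCategory
open Pool.Agent.Results.MP_eadf0f_ag.TensorDescent Pool.Agent.Helper59.SD

universe w v u t

theorem result {F K : Type w} [Field F] [Field K] [Algebra F K] [CharZero K] {C : Type u}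
    [Category.{v} C] [Preadditive C] [Linear F C] [MonoidalCategory C] [SymmetricCategory C]
    [RightRigidCategory C] (R : SuperRealization F K C) {ι : Type t} [Fintype ι] [DecidableEq ι]
    (A : ι → C) (w : List ι) (M : C) (s : M ⟶ word A w) (r : word A w ⟶ M) (hsr : s ≫ r = 𝟙 M)
    (he : IsPerm F A (r ≫ s)) (hM : Nontrivial (R.H M)) :
    R.CNC M ↔ ∀ i ∈ w, R.CNC (A i) :=
  cnc_summand R A w M s r hsr he hM

end Pool.Agent.Helper59.Variants.SchurFunctorDescent
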